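import Pool.Agent.N229.SC.PSM

/-!
Project SC, problem MP_83fd13_an, part PDE: the classical solution (helper264).
-/

set_option autoImplicit false

open Set Filter Topology MeasureTheory

namespace Pool.Agent.U264.SC

open Pool.Agent.N229.SC

/-- summability of the series `PP` -/
theorem summ {X : ℕ → ℂ} {C : ℝ} (hX : ∀ i, ‖X i‖ ≤ C) (e : ℝ) :
    Summable (fun i : ℕ => ((e : ℂ) ^ i / (i.factorial : ℂ)) * X i) := by
  refine Summable.of_norm_bounded (g := fun i : ℕ => (|e| ^ i / (i.factorial : ℝ)) * C) ?_ ?_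
  · exact (Real.summable_pow_div_factorial |e|).mul_right C
  · intro i
    rw [norm_mul, norm_div, norm_pow, Complex.norm_real, Complex.norm_natCast, Real.norm_eq_abs]
    have : 0 ≤ |e| ^ i / (i.factorial : ℝ) := by positivity
    exact mul_le_mul_of_nonneg_left (hX i) this

theorem hasSum_PP {Q : ℕ → ℂ → ℂ} {C : ℝ} {z : ℂ} (hX : ∀ i, ‖Q i z‖ ≤ C) (e : ℝ) :
    HasSum (fun i : ℕ => ((e : ℂ) ^ i / (i.factorial : ℂ)) * Q i z) (PP Q e z) :=
  (summ hX e).hasSum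

theorem _root_.HasSum.congr_fun' {f g : ℕ → ℂ} {a : ℂ} (h : HasSum f a) (e : ∀ n, g n = f n) :
    HasSum g a := (funext e : g = f) ▸ h

/-- the sum of the relations -/
theorem rel_sum {ρ : ℝ} {f : ℂ → ℂ} {Q : ℕ → ℂ → ℂ} {z : ℂ} {e C C' : ℝ}
    (hb : ∀ i, ‖Q i z‖ ≤ C) (hb' : ∀ i, ‖deriv (Q i) z‖ ≤ C')
    (rel : ∀ i : ℕ, f z * deriv (Q (i + 1)) z +
      (i + 1) * (deriv f z * Q (i + 1) z) = ρ / 2 * (deriv f z * (Q i z + Q (i + 2) z))) :
    f z * PP (fun i => deriv (Q (i + 1))) e z +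
      deriv f z * (e * PP (fun i => Q (i + 2)) e z + PP (fun i => Q (i + 1)) e z) =
      ρ / 2 * (deriv f z * (PP Q e z + PP (fun i => Q (i + 2)) e z)) := by
  have h0 := hasSum_PP (Q := Q) hb e
  have h1 := hasSum_PP (Q := fun i => Q (i + 1)) (fun i => hb (i + 1)) e
  have h2 := hasSum_PP (Q := fun i => Q (i + 2)) (fun i => hb (i + 2)) e
  have h3 := hasSum_PP (Q := fun i => deriv (Q (i + 1))) (fun i => hb' (i + 1)) e
  have h4 : HasSum (fun i : ℕ => ((e : ℂ) ^ i / (i.factorial : ℂ)) * ((i : ℂ) * Q (i + 1) z))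
      (e * PP (fun i => Q (i + 2)) e z) := by
    have h5 := h2.mul_left (e : ℂ)
    have h6 : HasSum (fun n : ℕ => ((e : ℂ) ^ (n + 1) / ((n + 1).factorial : ℂ)) *
        (((n + 1 : ℕ) : ℂ) * Q (n + 1 + 1) z)) (e * PP (fun i => Q (i + 2)) e z) := by
      refine h5.congr_fun' fun n => ?_
      have h7 : ((n.factorial : ℕ) : ℂ) ≠ 0 := Nat.cast_ne_zero.2 (Nat.factorial_ne_zero n)
      have h8 : (((n + 1 : ℕ)) : ℂ) ≠ 0 := Nat.cast_ne_zero.2 (Nat.succ_ne_zero n)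
      rw [Nat.factorial_succ, Nat.cast_mul]
      field_simp
      ring_nf
    have h7 := (hasSum_nat_add_iff (f := fun i : ℕ => ((e : ℂ) ^ i / (i.factorial : ℂ)) *
      ((i : ℂ) * Q (i + 1) z)) 1).1 h6
    simpa using h7
  have h5 : HasSum (fun i : ℕ => ((e : ℂ) ^ i / (i.factorial : ℂ)) * (f z * deriv (Q (i + 1)) z +
      (i + 1) * (deriv f z * Q (i + 1) z)))
      (f z * PP (fun i => deriv (Q (i + 1))) e z +
      deriv f z * (e * PP (fun i => Q (i + 2)) e z + PP (fun i => Q (i + 1)) e z)) := by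
    have h6 := (h3.mul_left (f z)).add ((h4.add h1).mul_left (deriv f z))
    refine h6.congr_fun' fun i => ?_
    ring
  have h6 : HasSum (fun i : ℕ => ((e : ℂ) ^ i / (i.factorial : ℂ)) *
      (ρ / 2 * (deriv f z * (Q i z + Q (i + 2) z))))
      (ρ / 2 * (deriv f z * (PP Q e z + PP (fun i => Q (i + 2)) e z))) := by
    have h7 := ((h0.add h2).mul_left (deriv f z)).mul_left ((ρ : ℂ) / 2)
    refine h7.congr_fun' fun i => ?_
    ring
  have h7 : (fun i : ℕ => ((e : ℂ) ^ i / (i.factorial : ℂ)) * (f z * deriv (Q (i + 1)) z +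
      (i + 1) * (deriv f z * Q (i + 1) z))) = fun i : ℕ => ((e : ℂ) ^ i / (i.factorial : ℂ)) *
      (ρ / 2 * (deriv f z * (Q i z + Q (i + 2) z))) := by
    funext i
    rw [rel i]
  rw [h7] at h5
  exact h5.unique h6

/-- the derivative of `eF` -/
noncomputable def Le (ρ : ℝ) (f : ℂ → ℂ) (z : ℂ) : ℂ →L[ℝ] ℝ :=
  Complex.reCLM.comp (ContinuousLinearMap.mul ℝ ℂ (-(starRingEnd ℂ (f z) * deriv f z) / ρ))

theorem Le_apply (ρ : ℝ) (f : ℂ → ℂ) (z v : ℂ) :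
    Le ρ f z v = (-(starRingEnd ℂ (f z) * deriv f z) / ρ * v).re := rfl

theorem eF_der {ρ : ℝ} {f : ℂ → ℂ} {z : ℂ} (hρ : 0 < ρ) (hf : DifferentiableAt ℂ f z) :
    HasFDerivAt (eF ρ f) (Le ρ f z) z := by
  have h1 := (hf.hasDerivAt.hasFDerivAt.restrictScalars ℝ).norm_sq
  have h2 := ((hasFDerivAt_const (ρ ^ 2) z).sub h1).mul_const ((2 * ρ)⁻¹)
  have h3 : (fun y => (ρ ^ 2 - ‖f y‖ ^ 2) * (2 * ρ)⁻¹) = eF ρ f := by
    funext y
    rw [eF, div_eq_mul_inv]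
  change HasFDerivAt (fun y => (ρ ^ 2 - ‖f y‖ ^ 2) * (2 * ρ)⁻¹) _ z at h2
  rw [h3] at h2
  refine h2.congr_fderiv ?_
  ext v
  rw [Le_apply]
  have h5 : (-(starRingEnd ℂ (f z) * deriv f z) / ρ * v) =
      ((-(ρ⁻¹) : ℝ) : ℂ) * (starRingEnd ℂ (f z) * (v * deriv f z)) := by
    push_cast
    ring
  rw [h5, Complex.re_ofReal_mul]
  simp [Complex.mul_re, Complex.mul_im]
  field_simp

/-- Cauchy's estimate -/
theorem deriv_bd {r r' C : ℝ} (hr : r' < r) {g : ℂ → ℂ}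
    (hg : DifferentiableOn ℂ g (Metric.ball 0 r)) (hC : ∀ z ∈ Metric.ball (0 : ℂ) r, ‖g z‖ ≤ C) :
    ∀ z ∈ Metric.ball (0 : ℂ) r', ‖deriv g z‖ ≤ C / ((r - r') / 2) := by
  intro z hz
  have hd : 0 < (r - r') / 2 := by linarith
  have hsub : Metric.closedBall z ((r - r') / 2) ⊆ Metric.ball 0 r := by
    intro w hw
    rw [Metric.mem_closedBall] at hw
    rw [Metric.mem_ball] at hz ⊢
    linarith [dist_triangle w z 0]
  refine Complex.norm_deriv_le_of_forall_mem_sphere_norm_le hd ?_ ?_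
  · exact (hg.mono hsub).diffContOnCl_ball (Subset.refl _)
  · intro w hw
    exact hC w (hsub (Metric.sphere_subset_closedBall hw))

/-- derivative of a composite series -/
theorem PP_comp {ρ r : ℝ} {f : ℂ → ℂ} {Q : ℕ → ℂ → ℂ} {z : ℂ} (hρ : 0 < ρ) (hr : 0 < r)
    (hf : DifferentiableAt ℂ f z) (hQ : ∀ i, DifferentiableOn ℂ (Q i) (Metric.ball 0 r))
    (hb : ∃ C, ∀ i, ∀ z ∈ Metric.ball (0 : ℂ) r, ‖Q i z‖ ≤ C) (hz : z ∈ Metric.ball (0 : ℂ) r) :
    HasFDerivAt (fun w => PP Q (eF ρ f w) w)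
      ((Le ρ f z).smulRight (PP (fun i => Q (i + 1)) (eF ρ f z) z) +
        ContinuousLinearMap.mul ℝ ℂ (PP (fun i => deriv (Q i)) (eF ρ f z) z)) z := by
  have h1 := (proof_PSM r Q hr hQ hb).1 (eF ρ f z) z hz
  have h2 : HasFDerivAt (fun w => (eF ρ f w, w))
    ((Le ρ f z).prod (ContinuousLinearMap.id ℝ ℂ)) z := (eF_der hρ hf).prodMk (hasFDerivAt_id z)
  have h3 := HasFDerivAt.comp z (f := fun w => (eF ρ f w, w)) h1 h2
  refine h3.congr_fderiv ?_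
  ext v
  simp

theorem hasF {g : ℂ → ℂ} {g' z : ℂ} (h : HasDerivAt g g' z) :
    HasFDerivAt g (ContinuousLinearMap.mul ℝ ℂ g') z := by
  refine (h.hasFDerivAt.restrictScalars ℝ).congr_fderiv ?_
  ext v
  simp [mul_comm]

theorem hasFconj {g : ℂ → ℂ} {g' z : ℂ} (h : HasDerivAt g g' z) :
    HasFDerivAt (fun w => starRingEnd ℂ (g w))
      ((Complex.conjCLE : ℂ →L[ℝ] ℂ).comp (ContinuousLinearMap.mul ℝ ℂ g')) z :=
  Complex.conjCLE.hasFDerivAt.comp z (hasF h)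

/-- the derivative of `SS` and the equation -/
theorem SS_der {ρ r : ℝ} {f : ℂ → ℂ} {Q : ℕ → ℂ → ℂ} {z : ℂ} (hρ : 0 < ρ) (hr : 0 < r)
    (hf : DifferentiableAt ℂ f z) (hf' : DifferentiableAt ℂ (deriv f) z)
    (hQ : ∀ i, DifferentiableOn ℂ (Q i) (Metric.ball 0 r))
    (hb : ∃ C, ∀ i, ∀ z ∈ Metric.ball (0 : ℂ) r, ‖Q i z‖ ≤ C)
    (hQ' : ∀ i, DifferentiableOn ℂ (deriv (Q i)) (Metric.ball 0 r))
    (hb' : ∃ C, ∀ i, ∀ z ∈ Metric.ball (0 : ℂ) r, ‖deriv (Q i) z‖ ≤ C)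
    (hz : z ∈ Metric.ball (0 : ℂ) r)
    (rel : ∀ i : ℕ, f z * deriv (Q (i + 1)) z +
      (i + 1) * (deriv f z * Q (i + 1) z) = ρ / 2 * (deriv f z * (Q i z + Q (i + 2) z))) :
    (fderiv ℝ (SS ρ f Q) z 1).re - (fderiv ℝ (SS ρ f Q) z Complex.I).im =
      -(‖deriv f z‖ ^ 2 * UU ρ f Q z) := by
  have hA := PP_comp (Q := fun i => deriv (Q i)) hρ hr hf hQ' hb' hz
  have hB := PP_comp (Q := fun i => Q (i + 1)) hρ hr hf (fun i => hQ (i + 1))
    (hb.imp fun C hC i => hC (i + 1)) hz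
  have hR : HasFDerivAt (fun w => (((PP (fun i => Q (i + 1)) (eF ρ f w) w).re : ℝ) : ℂ))
      ((Complex.ofRealCLM.comp Complex.reCLM).comp
        ((Le ρ f z).smulRight (PP (fun i => Q (i + 1 + 1)) (eF ρ f z) z) +
      (ContinuousLinearMap.mul ℝ ℂ) (PP (fun i => deriv (Q (i + 1))) (eF ρ f z) z))) z :=
    ((Complex.ofRealCLM.comp Complex.reCLM).hasFDerivAt).comp z hB
  have hP := ((hasF hf'.hasDerivAt).mul (hasFconj hf.hasDerivAt)).mul_const ((ρ : ℂ)⁻¹)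
  have hS := hA.sub (hP.mul hR)
  have hS2 := hS.congr_of_eventuallyEq (f₁ := SS ρ f Q) (Eventually.of_forall fun w => by
    simp [SS, div_eq_mul_inv])
  rw [hS2.fderiv]
  obtain ⟨C, hC⟩ := hb
  obtain ⟨C', hC'⟩ := hb'
  have hrel := rel_sum (e := eF ρ f z) (fun i => hC i z hz) (fun i => hC' i z hz) rel
  have hrel2 := congrArg (fun w => (starRingEnd ℂ (deriv f z) * w).re) hrel
  have he : eF ρ f z = (ρ ^ 2 - ((f z).re ^ 2 + (f z).im ^ 2)) / (2 * ρ) := by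
    rw [eF, ← Complex.normSq_eq_norm_sq, Complex.normSq_apply]
    ring
  have hn : ‖deriv f z‖ ^ 2 = (deriv f z).re ^ 2 + (deriv f z).im ^ 2 := by
    rw [← Complex.normSq_eq_norm_sq, Complex.normSq_apply]
    ring
  rw [hn, UU]
  generalize eF ρ f z = e at *
  simp [Le_apply, Complex.mul_re, Complex.mul_im] at hrel2 ⊢
  generalize (PP (fun i => deriv (Q i)) e z) = A0 at *
  generalize (PP (fun i => deriv (Q (i + 1))) e z) = A1 at *
  generalize (PP (fun i => deriv (deriv (Q i))) e z) = A2 at *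
  generalize (PP (fun i => Q (i + 2)) e z) = B2 at *
  generalize (PP (fun i => Q (i + 1)) e z) = B1 at *
  generalize (PP Q e z) = B0 at *
  clear hA hB hR hS hS2 hP rel hC hC' hrel hn
  have hi : ρ * ρ⁻¹ = 1 := mul_inv_cancel₀ hρ.ne'
  have he2 : e = ρ / 2 - ((f z).re ^ 2 + (f z).im ^ 2) * ρ⁻¹ / 2 := by
    rw [he]
    field_simp
  simp only [div_eq_mul_inv] at hrel2 he2 ⊢
  generalize ρ⁻¹ = i at *
  linear_combination (-(2 * i)) * hrel2 +
    (-(((deriv f z).re ^ 2 + (deriv f z).im ^ 2) * B0.re)) * hi +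
    (2 * i * ((deriv f z).re ^ 2 + (deriv f z).im ^ 2) * B2.re) * he2

/-- the derivative of `UU` -/
theorem UU_der {ρ r : ℝ} {f : ℂ → ℂ} {Q : ℕ → ℂ → ℂ} {z : ℂ} (hρ : 0 < ρ) (hr : 0 < r)
    (hf : DifferentiableAt ℂ f z)
    (hQ : ∀ i, DifferentiableOn ℂ (Q i) (Metric.ball 0 r))
    (hb : ∃ C, ∀ i, ∀ z ∈ Metric.ball (0 : ℂ) r, ‖Q i z‖ ≤ C)
    (hz : z ∈ Metric.ball (0 : ℂ) r) :
    HasFDerivAt (UU ρ f Q)
      (Complex.reCLM.comp (ContinuousLinearMap.mul ℝ ℂ (SS ρ f Q z))) z := by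
  have hB := PP_comp (Q := Q) hρ hr hf hQ hb hz
  have hR := Complex.reCLM.hasFDerivAt.comp z hB
  refine HasFDerivAt.congr_fderiv (f := UU ρ f Q) hR ?_
  ext v
  have e1 : (Complex.reCLM.comp ((Le ρ f z).smulRight (PP (fun i => Q (i + 1)) (eF ρ f z) z) +
      ContinuousLinearMap.mul ℝ ℂ (PP (fun i => deriv (Q i)) (eF ρ f z) z))) v =
      (-(starRingEnd ℂ (f z) * deriv f z) / ρ * v).re * (PP (fun i => Q (i + 1)) (eF ρ f z) z).re +
      (PP (fun i => deriv (Q i)) (eF ρ f z) z * v).re := by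
    simp [Le_apply]
  have e2 : (Complex.reCLM.comp (ContinuousLinearMap.mul ℝ ℂ (SS ρ f Q z))) v =
      (SS ρ f Q z * v).re := rfl
  rw [e1, e2, SS]
  have e3 : (PP (fun i => deriv (Q i)) (eF ρ f z) z - deriv f z * starRingEnd ℂ (f z) / ρ *
      ((PP (fun i => Q (i + 1)) (eF ρ f z) z).re : ℂ)) * v =
      PP (fun i => deriv (Q i)) (eF ρ f z) z * v + ((PP (fun i => Q (i + 1)) (eF ρ f z) z).re : ℂ) *
      (-(starRingEnd ℂ (f z) * deriv f z) / ρ * v) := by ring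
  rw [e3, Complex.add_re, Complex.re_ofReal_mul]
  ring

theorem eF_smooth {ρ r : ℝ} {f : ℂ → ℂ} (hf1 : ContDiffOn ℝ 1 f (Metric.ball 0 r)) :
    ContDiffOn ℝ 1 (fun z => (ρ ^ 2 - ‖f z‖ ^ 2) / (2 * ρ)) (Metric.ball 0 r) :=
  (contDiffOn_const.sub (hf1.norm_sq ℝ)).div_const _

theorem comp_smooth {r : ℝ} {G : ℝ × ℂ → ℂ} {e : ℂ → ℝ}
    (h1 : ContDiffOn ℝ 1 G (Set.univ ×ˢ Metric.ball 0 r))
    (h2 : ContDiffOn ℝ 1 e (Metric.ball 0 r)) :
    ContDiffOn ℝ 1 (fun w => G (e w, w)) (Metric.ball 0 r) := by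
  have h3 : ContDiffOn ℝ 1 (fun z : ℂ => (e z, z)) (Metric.ball 0 r) :=
    h2.prodMk contDiffOn_id
  have h4 : MapsTo (fun z : ℂ => (e z, z)) (Metric.ball 0 r)
      (Set.univ ×ˢ Metric.ball (0 : ℂ) r) := fun z hz => ⟨mem_univ _, hz⟩
  exact h1.comp h3 h4

theorem PSM_smooth {r : ℝ} {Q : ℕ → ℂ → ℂ} (hr : 0 < r)
    (hQ : ∀ i, DifferentiableOn ℂ (Q i) (Metric.ball 0 r))
    (hb : ∃ C, ∀ i, ∀ z ∈ Metric.ball (0 : ℂ) r, ‖Q i z‖ ≤ C) :
    ContDiffOn ℝ 1 (fun p : ℝ × ℂ => PP Q p.1 p.2) (Set.univ ×ˢ Metric.ball 0 r) :=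
  ContDiffOn.of_le (proof_PSM r Q hr hQ hb).2 one_le_two

/-- smoothness of composite series -/
theorem PP_smooth {ρ r : ℝ} {f : ℂ → ℂ} {Q : ℕ → ℂ → ℂ} (hr : 0 < r)
    (hf : DifferentiableOn ℂ f (Metric.ball 0 r))
    (hQ : ∀ i, DifferentiableOn ℂ (Q i) (Metric.ball 0 r))
    (hb : ∃ C, ∀ i, ∀ z ∈ Metric.ball (0 : ℂ) r, ‖Q i z‖ ≤ C) :
    ContDiffOn ℝ 1 (fun w => PP Q (eF ρ f w) w) (Metric.ball 0 r) := by
  have hf1 : ContDiffOn ℝ 1 f (Metric.ball 0 r) :=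
    (hf.contDiffOn Metric.isOpen_ball).restrict_scalars ℝ
  exact comp_smooth (PSM_smooth hr hQ hb) (eF_smooth hf1)

theorem proof_PDE : S_PDE := by
  intro ρ r f Q h
  have hρ := h.conf.rho_pos
  have hr1 := h.conf.r_gt
  set r' := (1 + r) / 2 with hr'
  have h1 : 1 < r' := by rw [hr']; linarith
  have h2 : r' < r := by rw [hr']; linarith
  have h0 : 0 < r' := by linarith
  have hsub : Metric.ball (0 : ℂ) r' ⊆ Metric.ball 0 r := Metric.ball_subset_ball h2.le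
  have hf := h.conf.f_diff.mono hsub
  have hQ : ∀ i, DifferentiableOn ℂ (Q i) (Metric.ball 0 r') := fun i => (h.Q_diff i).mono hsub
  have hb : ∃ C, ∀ i, ∀ z ∈ Metric.ball (0 : ℂ) r', ‖Q i z‖ ≤ C :=
    h.Q_bd.imp fun C hC i z hz => hC i z (hsub hz)
  have hQ' : ∀ i, DifferentiableOn ℂ (deriv (Q i)) (Metric.ball 0 r') := fun i =>
    ((h.Q_diff i).deriv Metric.isOpen_ball).mono hsub
  have hb' : ∃ C, ∀ i, ∀ z ∈ Metric.ball (0 : ℂ) r', ‖deriv (Q i) z‖ ≤ C := by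
    obtain ⟨C, hC⟩ := h.Q_bd
    exact ⟨C / ((r - r') / 2), fun i z hz => deriv_bd h2 (h.Q_diff i) (hC i) z hz⟩
  have hfa : ∀ z ∈ Metric.ball (0 : ℂ) r', DifferentiableAt ℂ f z := fun z hz =>
    hf.differentiableAt (Metric.isOpen_ball.mem_nhds hz)
  have hf' : DifferentiableOn ℂ (deriv f) (Metric.ball 0 r') :=
    (h.conf.f_diff.deriv Metric.isOpen_ball).mono hsub
  have hfa' : ∀ z ∈ Metric.ball (0 : ℂ) r', DifferentiableAt ℂ (deriv f) z := fun z hz =>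
    hf'.differentiableAt (Metric.isOpen_ball.mem_nhds hz)
  have hU : ∀ z ∈ Metric.ball (0 : ℂ) r', HasFDerivAt (UU ρ f Q)
      (Complex.reCLM.comp (ContinuousLinearMap.mul ℝ ℂ (SS ρ f Q z))) z := fun z hz =>
    UU_der hρ h0 (hfa z hz) hQ hb hz
  -- the boundary values
  have hc : ∀ z : ℂ, ‖z‖ = 1 → UU ρ f Q z = UU ρ f Q 1 := by
    have hg : ∀ θ : ℝ, HasDerivAt (fun t : ℝ => UU ρ f Q (Complex.exp (t * Complex.I))) 0 θ := by
      intro θ
      have hn : ‖Complex.exp (θ * Complex.I)‖ = 1 := Complex.norm_exp_ofReal_mul_I θ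
      have hm : Complex.exp (θ * Complex.I) ∈ Metric.ball (0 : ℂ) r' := by
        rw [mem_ball_zero_iff, hn]; exact h1
      have h3 : HasDerivAt (fun t : ℝ => Complex.exp (t * Complex.I))
          (Complex.exp (θ * Complex.I) * (1 * Complex.I)) θ :=
        ((Complex.ofRealCLM.hasDerivAt (x := θ)).mul_const Complex.I).cexp
      have h4 := (hU _ hm).comp_hasDerivAt θ h3
      have h5 : (Complex.reCLM.comp (ContinuousLinearMap.mul ℝ ℂ
          (SS ρ f Q (Complex.exp (θ * Complex.I))))) (Complex.exp (θ * Complex.I) * (1 * Complex.I)) =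
          0 := by
        rw [h.bdry _ hn]
        simp
      rw [h5] at h4
      exact h4
    have hconst := is_const_of_deriv_eq_zero (f := fun t : ℝ => UU ρ f Q (Complex.exp (t * Complex.I)))
      (fun θ => (hg θ).differentiableAt) (fun θ => (hg θ).deriv)
    intro z hz
    have h6 := hconst z.arg 0
    have h7 : Complex.exp (z.arg * Complex.I) = z := by
      have := Complex.norm_mul_exp_arg_mul_I z
      rwa [hz, Complex.ofReal_one, one_mul] at this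
    simp only [h7, Complex.ofReal_zero, zero_mul, Complex.exp_zero] at h6
    exact h6
  refine ⟨r', UU ρ f Q 1, UU ρ f Q, SS ρ f Q, h1, h2.le, ?_⟩
  refine ⟨hU, ?_, ?_, h.bdry, hc, ?_⟩
  · -- smoothness
    have hA := PP_smooth (ρ := ρ) (Q := fun i => deriv (Q i)) h0 hf hQ' hb'
    have hB := PP_smooth (ρ := ρ) (Q := fun i => Q (i + 1)) h0 hf (fun i => hQ (i + 1))
      (hb.imp fun C hC i => hC (i + 1))
    have hf1 : ContDiffOn ℝ 1 f (Metric.ball 0 r') :=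
      (hf.contDiffOn Metric.isOpen_ball).restrict_scalars ℝ
    have hf2 : ContDiffOn ℝ 1 (deriv f) (Metric.ball 0 r') :=
      (hf'.contDiffOn Metric.isOpen_ball).restrict_scalars ℝ
    have hcj : ContDiffOn ℝ 1 (fun w => starRingEnd ℂ (f w)) (Metric.ball 0 r') :=
      Complex.conjCLE.contDiff.comp_contDiffOn hf1
    have hR : ContDiffOn ℝ 1 (fun w => (((PP (fun i => Q (i + 1)) (eF ρ f w) w).re : ℝ) : ℂ))
        (Metric.ball 0 r') :=
      (Complex.ofRealCLM.comp Complex.reCLM).contDiff.comp_contDiffOn hB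
    exact hA.sub (((hf2.mul hcj).div_const _).mul hR)
  · intro z hz
    obtain hrel := fun i : ℕ => h.rel i z (hsub hz)
    exact SS_der hρ h0 (hfa z hz) (hfa' z hz) hQ hb hQ' hb' hz hrel
  · obtain ⟨z, hz, hne⟩ := h.ne
    rwa [hc z hz] at hne

end Pool.Agent.U264.SC
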